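import Pool.Agent.LindAlg.Main

/-!
# The Lindenbaum algebra of the class of autostable prime structures is not `Π⁰₃`-universal

More generally, for every class `K` of structures with strong constructivizations, the numerated
Lindenbaum algebra of `Th(K)` is neither `Σ⁰ₙ`-universal (`n ≥ 1`) nor `Π⁰ₙ`-universal (`n ≥ 2`).
-/

open FirstOrder

namespace Pool.Agent.Results.MP_56da3c_lc.NotUniversal

open Pool.Agent.LindAlg

theorem result (L : FirstOrder.Language.{0, 0})
    [Encodable (Σ n, L.Functions n)] [Encodable (Σ n, L.Relations n)]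
    (Φ : ℕ → L.Sentence) (hΦ : IsGoedelEnumeration L Φ) :
    ¬ (lindenbaumNum (theoryOf L (PrimeAutostable L)) Φ hΦ.1).IsUniversal (IsPi 3) ∧
    ∀ K : StructureClass L,
      (∀ (M : Type) [L.Structure M], K M → ∃ ν : ℕ → M, IsStrongConstructivization L ν) →
      ∀ n : ℕ, ¬ (lindenbaumNum (theoryOf L K) Φ hΦ.1).IsUniversal (IsSigma (n + 1)) ∧
        ¬ (lindenbaumNum (theoryOf L K) Φ hΦ.1).IsUniversal (IsPi (n + 2)) := by
  have key : ∀ K : StructureClass L,
      (∀ (M : Type) [L.Structure M], K M → ∃ ν : ℕ → M, IsStrongConstructivization L ν) →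
      ∀ n : ℕ, ¬ (lindenbaumNum (theoryOf L K) Φ hΦ.1).IsUniversal (IsSigma (n + 1)) ∧
        ¬ (lindenbaumNum (theoryOf L K) Φ hΦ.1).IsUniversal (IsPi (n + 2)) :=
    fun K hK n => ⟨not_isUniversal K hK hΦ fun _ hp => hp.of_one n,
      not_isUniversal K hK hΦ fun _ hp => hp.isPi_of_one n⟩
  exact ⟨(key (PrimeAutostable L) (fun M _ hM => hM.2.1) 1).2, key⟩

end Pool.Agent.Results.MP_56da3c_lc.NotUniversal
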